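import Pool.Agent.Helper30_Simp2.Stmts
import Pool.Agent.Helper42_Simp.Rq

/-!
# Module ZG: properties of the generating function
-/

set_option autoImplicit false
set_option linter.unusedSectionVars false

namespace Pool.Agent.Helper30_Simp2.H40

open Finset Pool.Agent.Helper6_Mono Pool.Agent.Helper30_Simp

section zg

variable {σ : Type} [Fintype σ] (M : Finset (σ →₀ ℕ))

/-- the level as a function on the walls -/
def lvl (N : ℕ) : Wa M → ℕ
  | Sum.inl _ => 0
  | Sum.inr _ => N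

theorem val_eq (p : MvPolynomial (Wa M) (PowerSeries ℤ)) (h : Wa M → ℕ) (N : ℕ) :
    val M p h N = ∑ m ∈ p.support, p.coeff m * GG M (fun ρ => h ρ + m ρ + lvl M N ρ) := by
  unfold val
  refine Finset.sum_congr rfl fun m _ => ?_
  congr 2

theorem val_subset (p : MvPolynomial (Wa M) (PowerSeries ℤ)) (h : Wa M → ℕ) (N : ℕ)
    (s : Finset (Wa M →₀ ℕ)) (hs : p.support ⊆ s) :
    val M p h N = ∑ m ∈ s, p.coeff m * GG M (fun ρ => h ρ + m ρ + lvl M N ρ) := by
  rw [val_eq]
  refine Finset.sum_subset hs fun m _ hm => ?_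
  rw [MvPolynomial.notMem_support_iff.1 hm, zero_mul]

theorem val_add (p q : MvPolynomial (Wa M) (PowerSeries ℤ)) (h : Wa M → ℕ) (N : ℕ) :
    val M (p + q) h N = val M p h N + val M q h N := by
  classical
  rw [val_subset M (p + q) h N (p.support ∪ q.support) MvPolynomial.support_add,
    val_subset M p h N (p.support ∪ q.support) Finset.subset_union_left,
    val_subset M q h N (p.support ∪ q.support) Finset.subset_union_right,
    ← Finset.sum_add_distrib]
  refine Finset.sum_congr rfl fun m _ => ?_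
  rw [MvPolynomial.coeff_add, add_mul]

theorem val_C_mul (c : PowerSeries ℤ) (p : MvPolynomial (Wa M) (PowerSeries ℤ)) (h : Wa M → ℕ)
    (N : ℕ) : val M (MvPolynomial.C c * p) h N = c * val M p h N := by
  have hs : (MvPolynomial.C c * p).support ⊆ p.support := by
    intro m hm
    rw [MvPolynomial.mem_support_iff, MvPolynomial.coeff_C_mul] at hm
    rw [MvPolynomial.mem_support_iff]
    intro h0
    exact hm (by rw [h0, mul_zero])
  rw [val_subset M _ h N p.support hs, val_eq, Finset.mul_sum]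
  refine Finset.sum_congr rfl fun m _ => ?_
  rw [MvPolynomial.coeff_C_mul, mul_assoc]

theorem val_zero (h : Wa M → ℕ) (N : ℕ) : val M 0 h N = 0 := by
  rw [val_eq]
  simp

theorem val_monomial (m : Wa M →₀ ℕ) (c : PowerSeries ℤ) (h : Wa M → ℕ) (N : ℕ) :
    val M (MvPolynomial.monomial m c) h N = c * GG M (fun ρ => h ρ + m ρ + lvl M N ρ) := by
  classical
  rw [val_subset M _ h N {m} MvPolynomial.support_monomial_subset, Finset.sum_singleton,
    MvPolynomial.coeff_monomial, if_pos rfl]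

theorem val_monomial_mul (a : Wa M →₀ ℕ) (c : PowerSeries ℤ)
    (p : MvPolynomial (Wa M) (PowerSeries ℤ)) (h : Wa M → ℕ) (N : ℕ) :
    val M (MvPolynomial.monomial a c * p) h N = c * val M p (fun ρ => h ρ + a ρ) N := by
  induction p using MvPolynomial.induction_on' with
  | monomial u b =>
    rw [MvPolynomial.monomial_mul, val_monomial, val_monomial, mul_assoc]
    congr 3
    funext ρ
    rw [Finsupp.add_apply]
    ring
  | add p q hp hq => rw [mul_add, val_add, hp, hq, val_add, mul_add]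

theorem val_sub (p q : MvPolynomial (Wa M) (PowerSeries ℤ)) (h : Wa M → ℕ) (N : ℕ) :
    val M (p - q) h N = val M p h N - val M q h N := by
  have h1 : p - q = p + MvPolynomial.C (-1) * q := by
    rw [map_neg, map_one]; ring
  rw [h1, val_add, val_C_mul]
  ring

/-! ### the shift of the level -/

/-- the exponent of the monomial `ET` -/
noncomputable def eT : Wa M →₀ ℕ := Finsupp.equivFunOnFinite.symm (lvl M 1)

theorem ET_eq (K : Type) [CommRing K] : ET M K = MvPolynomial.monomial (eT M) 1 := by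
  classical
  rw [ET, MvPolynomial.monomial_eq, map_one, one_mul, Finsupp.prod_fintype _ _ (fun i => pow_zero _),
    Fintype.prod_sum_type]
  have h1 : ∀ i : σ, (MvPolynomial.X (Sum.inl i) : MvPolynomial (Wa M) K) ^ (eT M) (Sum.inl i)
      = 1 := fun i => pow_zero _
  have h2 : ∀ α : M, (MvPolynomial.X (Sum.inr α) : MvPolynomial (Wa M) K) ^ (eT M) (Sum.inr α)
      = MvPolynomial.X (Sum.inr α) := fun i => pow_one _
  simp only [h1, h2, Finset.prod_const_one, one_mul]

theorem val_ET_mul (p : MvPolynomial (Wa M) (PowerSeries ℤ)) (h : Wa M → ℕ) (N : ℕ) :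
    val M (ET M (PowerSeries ℤ) * p) h N = val M p h (N + 1) := by
  rw [ET_eq, val_monomial_mul, one_mul, val_eq, val_eq]
  refine Finset.sum_congr rfl fun m _ => ?_
  congr 2
  funext ρ
  rcases ρ with i | α
  · show h (Sum.inl i) + 0 + m (Sum.inl i) + 0 = h (Sum.inl i) + m (Sum.inl i) + 0
    ring
  · show h (Sum.inr α) + 1 + m (Sum.inr α) + N = h (Sum.inr α) + m (Sum.inr α) + (N + 1)
    ring

theorem val_ET_pow_mul (k : ℕ) (p : MvPolynomial (Wa M) (PowerSeries ℤ)) (h : Wa M → ℕ) (N : ℕ) :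
    val M (ET M (PowerSeries ℤ) ^ k * p) h N = val M p h (N + k) := by
  induction k generalizing N with
  | zero => rw [pow_zero, one_mul, add_zero]
  | succ k ih =>
    rw [pow_succ', mul_assoc, val_ET_mul, ih]
    congr 1
    ring

/-! ### the ideal -/

/-- the ideal of the polynomials whose values are rational -/
noncomputable def RI (P : Set (ℕ × ℕ)) : Ideal (MvPolynomial (Wa M) (PowerSeries ℤ)) where
  carrier := {p | ∀ h, RQ PowerSeries.X P (val M p h)}
  zero_mem' := fun h => RQ.zero.congr fun m => (val_zero M h m).symm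
  add_mem' := fun {p q} hp hq h => ((hp h).add (hq h)).congr fun m => (val_add M p q h m).symm
  smul_mem' := by
    intro q p hp
    show ∀ h, RQ PowerSeries.X P (val M (q * p) h)
    induction q using MvPolynomial.induction_on' with
    | monomial u b =>
      intro h
      exact ((hp fun ρ => h ρ + u ρ).smul b).congr fun m => (val_monomial_mul M u b p h m).symm
    | add q r hq hr =>
      intro h
      exact ((hq h).add (hr h)).congr fun m => by rw [add_mul, val_add]

theorem mem_RI (P : Set (ℕ × ℕ)) (p : MvPolynomial (Wa M) (PowerSeries ℤ)) :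
    p ∈ RI M P ↔ ∀ h, RQ PowerSeries.X P (val M p h) := Iff.rfl

/-! ### translations -/

/-- the points counted by the generating function of a closed cell -/
def pts (S : Finset (Wa M)) (h : Wa M → ℕ) (d : ℕ) : Set (σ → ℕ) :=
  {w | ((∀ ρ, h ρ ≤ wv M w ρ) ∧ ∀ ρ ∈ S, wv M w ρ = h ρ) ∧ ∑ i, w i = d}

theorem pts_finite (S : Finset (Wa M)) (h : Wa M → ℕ) (d : ℕ) : (pts M S h d).Finite := by
  classical
  refine (Set.finite_Iic (fun _ : σ => d)).subset fun u hu i => ?_
  rw [← hu.2]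
  exact Finset.single_le_sum (f := fun i => u i) (fun _ _ => Nat.zero_le _) (Finset.mem_univ i)

/-- the generating function of a closed cell -/
noncomputable def gfS (S : Finset (Wa M)) (h : Wa M → ℕ) : PowerSeries ℤ :=
  PowerSeries.mk fun d => ((pts M S h d).ncard : ℤ)

theorem GG_eq (h : Wa M → ℕ) : GG M h = gfS M ∅ h := by
  refine PowerSeries.ext fun d => ?_
  rw [GG, gfS, PowerSeries.coeff_mk, PowerSeries.coeff_mk]
  have : pts M ∅ h d = {u : σ → ℕ | (∀ ρ, h ρ ≤ wv M u ρ) ∧ ∑ i, u i = d} := by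
    ext u
    simp [pts]
  rw [this]
  rfl

theorem wv_add (u v : σ → ℕ) (ρ : Wa M) : wv M (fun i => u i + v i) ρ = wv M u ρ + wv M v ρ := by
  rcases ρ with i | α
  · rfl
  · show dot (fun i => u i + v i) (α : σ →₀ ℕ) = dot u (α : σ →₀ ℕ) + dot v (α : σ →₀ ℕ)
    unfold dot
    rw [← Finset.sum_add_distrib]
    exact Finset.sum_congr rfl fun i _ => add_mul _ _ _

theorem gfS_translate (S : Finset (Wa M)) (h : Wa M → ℕ) (u : σ → ℕ) :
    gfS M S (fun ρ => h ρ + wv M u ρ) = PowerSeries.X ^ (∑ i, u i) * gfS M S h := by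
  refine PowerSeries.ext fun d => ?_
  rw [PowerSeries.coeff_X_pow_mul', gfS, gfS, PowerSeries.coeff_mk]
  split_ifs with hd
  · rw [PowerSeries.coeff_mk]
    congr 1
    symm
    refine Set.ncard_congr (fun w _ => fun i => w i + u i) ?_ ?_ ?_
    · rintro w ⟨⟨h1, h2⟩, h3⟩
      refine ⟨⟨fun ρ => ?_, fun ρ hρ => ?_⟩, ?_⟩
      · rw [wv_add]
        exact Nat.add_le_add_right (h1 ρ) _
      · rw [wv_add, h2 ρ hρ]
      · have h4 : ∑ i, (w i + u i) = ∑ i, w i + ∑ i, u i := Finset.sum_add_distrib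
        rw [h4, h3]
        omega
    · intro w v _ _ huv
      funext i
      have : w i + u i = v i + u i := congrFun huv i
      omega
    · rintro w ⟨⟨h1, h2⟩, h3⟩
      have hle : ∀ i, u i ≤ w i := by
        intro i
        have := h1 (Sum.inl i)
        exact le_trans (Nat.le_add_left _ _) this
      have hw : w = fun i => (w i - u i) + u i := funext fun i => (Nat.sub_add_cancel (hle i)).symm
      have hwv : ∀ ρ, wv M w ρ = wv M (fun i => w i - u i) ρ + wv M u ρ := by
        intro ρ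
        conv_lhs => rw [hw]
        exact wv_add M _ _ _
      refine ⟨fun i => w i - u i, ⟨⟨fun ρ => ?_, fun ρ hρ => ?_⟩, ?_⟩, hw.symm⟩
      · have h4 := h1 ρ
        rw [hwv] at h4
        exact Nat.le_of_add_le_add_right h4
      · have h4 := h2 ρ hρ
        rw [hwv] at h4
        exact Nat.add_right_cancel h4
      · have h4 : ∑ i, (w i - u i) + ∑ i, u i = ∑ i, w i := by
          rw [← Finset.sum_add_distrib]
          exact Finset.sum_congr rfl fun i _ => Nat.sub_add_cancel (hle i)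
        show ∑ i, (w i - u i) = d - ∑ i, u i
        omega
  · have : pts M S (fun ρ => h ρ + wv M u ρ) d = ∅ := by
      rw [Set.eq_empty_iff_forall_notMem]
      rintro w ⟨⟨h1, _⟩, h3⟩
      have h4 : ∑ i, u i ≤ ∑ i, w i := Finset.sum_le_sum fun i _ =>
        le_trans (Nat.le_add_left _ _) (h1 (Sum.inl i))
      omega
    rw [this, Set.ncard_empty, Nat.cast_zero]

/-- the exponent of the monomial `Ev` -/
noncomputable def eV (u : σ → ℕ) : Wa M →₀ ℕ := Finsupp.equivFunOnFinite.symm (wv M u)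

theorem Ev_eq (K : Type) [CommRing K] (u : σ → ℕ) :
    Ev M K u = MvPolynomial.monomial (eV M u) 1 := by
  rw [Ev, MvPolynomial.monomial_eq, map_one, one_mul, Finsupp.prod_fintype _ _ (fun i => pow_zero _)]
  rfl

theorem Ev_mem (P : Set (ℕ × ℕ)) (u : σ → ℕ) :
    Ev M (PowerSeries ℤ) u - MvPolynomial.C (PowerSeries.X ^ (∑ i, u i)) ∈ RI M P := by
  intro h
  refine RQ.zero.congr fun m => ?_
  rw [val_sub, Ev_eq, ← MvPolynomial.monomial_zero', val_monomial, val_monomial, one_mul, GG_eq,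
    GG_eq]
  have h1 : (fun ρ => h ρ + (eV M u) ρ + lvl M m ρ)
      = fun ρ => (h ρ + lvl M m ρ) + wv M u ρ := by
    funext ρ
    show h ρ + wv M u ρ + lvl M m ρ = _
    ring
  have h2 : (fun ρ => h ρ + (0 : Wa M →₀ ℕ) ρ + lvl M m ρ) = fun ρ => (h ρ + lvl M m ρ) := by
    funext ρ
    show h ρ + 0 + lvl M m ρ = _
    ring
  rw [h1, gfS_translate M ∅ (fun ρ => h ρ + lvl M m ρ) u, h2, sub_self]

/-! ### closed cells -/

theorem gfS_insert [DecidableEq (Wa M)] (S : Finset (Wa M)) (r : Wa M) (hr : r ∉ S)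
    (h : Wa M → ℕ) :
    gfS M S h = gfS M (insert r S) h + gfS M S (fun ρ => h ρ + (Finsupp.single r 1) ρ) := by
  refine PowerSeries.ext fun d => ?_
  rw [map_add, gfS, gfS, gfS, PowerSeries.coeff_mk, PowerSeries.coeff_mk, PowerSeries.coeff_mk,
    ← Nat.cast_add, ← Set.ncard_union_eq _ (pts_finite M _ _ _) (pts_finite M _ _ _)]
  · congr 2
    ext w
    simp only [pts, Set.mem_union, Set.mem_ofPred_eq, Finset.mem_insert]
    constructor
    · rintro ⟨⟨h1, h2⟩, h3⟩
      by_cases h4 : wv M w r = h r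
      · exact Or.inl ⟨⟨h1, by rintro ρ (rfl | hρ); exacts [h4, h2 ρ hρ]⟩, h3⟩
      · refine Or.inr ⟨⟨fun ρ => ?_, fun ρ hρ => ?_⟩, h3⟩
        · by_cases h5 : ρ = r
          · subst h5
            rw [Finsupp.single_eq_same]
            exact Nat.lt_of_le_of_ne (h1 ρ) (Ne.symm h4)
          · rw [Finsupp.single_eq_of_ne h5, add_zero]
            exact h1 ρ
        · have h5 : ρ ≠ r := by rintro rfl; exact hr hρ
          rw [Finsupp.single_eq_of_ne h5, add_zero]
          exact h2 ρ hρ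
    · rintro (⟨⟨h1, h2⟩, h3⟩ | ⟨⟨h1, h2⟩, h3⟩)
      · exact ⟨⟨h1, fun ρ hρ => h2 ρ (Or.inr hρ)⟩, h3⟩
      · refine ⟨⟨fun ρ => le_trans (Nat.le_add_right _ _) (h1 ρ), fun ρ hρ => ?_⟩, h3⟩
        have h5 : ρ ≠ r := by rintro rfl; exact hr hρ
        have h6 := h2 ρ hρ
        rw [Finsupp.single_eq_of_ne h5, add_zero] at h6
        exact h6
  · rw [Set.disjoint_left]
    rintro w ⟨⟨_, h2⟩, _⟩ ⟨⟨h1, _⟩, _⟩
    have h3 := h2 r (Finset.mem_insert_self r S)
    have h4 : h r + (Finsupp.single r 1 : Wa M →₀ ℕ) r ≤ wv M w r := h1 r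
    rw [Finsupp.single_eq_same] at h4
    omega

theorem val_Xs (S : Finset (Wa M)) (h : Wa M → ℕ) (N : ℕ) :
    val M (Xs M (PowerSeries ℤ) S) h N = gfS M S (fun ρ => h ρ + lvl M N ρ) := by
  classical
  induction S using Finset.induction_on generalizing h with
  | empty =>
    have h1 : Xs M (PowerSeries ℤ) ∅ = MvPolynomial.monomial 0 1 := by
      rw [Xs, Finset.prod_empty]
      rfl
    rw [h1, val_monomial, one_mul, GG_eq]
    rfl
  | insert r S hr ih =>
    have h1 : Xs M (PowerSeries ℤ) (insert r S)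
        = Xs M (PowerSeries ℤ) S
          - MvPolynomial.monomial (Finsupp.single r 1) 1 * Xs M (PowerSeries ℤ) S := by
      rw [Xs, Finset.prod_insert hr]
      show (1 - MvPolynomial.X r) * _ = _ - MvPolynomial.X r * _
      rw [sub_mul, one_mul]
      rfl
    rw [h1, val_sub, val_monomial_mul, one_mul, ih, ih, gfS_insert M S r hr]
    have h2 : (fun ρ => h ρ + (Finsupp.single r 1 : Wa M →₀ ℕ) ρ + lvl M N ρ)
        = fun ρ => h ρ + lvl M N ρ + (Finsupp.single r 1 : Wa M →₀ ℕ) ρ := by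
      funext ρ
      ring
    rw [h2]
    ring

theorem Xs_mem (P : Set (ℕ × ℕ)) (S : Finset (Wa M)) (hS : ∀ u N, InK M S u N → u = 0 ∧ N = 0) :
    Xs M (PowerSeries ℤ) S ∈ RI M P := by
  intro h
  suffices hsuf : ∃ N₀, ∀ N, N₀ ≤ N → ∀ w : σ → ℕ,
      ¬ ((∀ ρ, h ρ + lvl M N ρ ≤ wv M w ρ) ∧ ∀ ρ ∈ S, wv M w ρ = h ρ + lvl M N ρ) by
    obtain ⟨N₀, hN₀⟩ := hsuf
    refine .fin _ N₀ fun m hm => ?_
    rw [val_Xs]
    refine PowerSeries.ext fun d => ?_
    rw [gfS, PowerSeries.coeff_mk, map_zero]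
    have : pts M S (fun ρ => h ρ + lvl M m ρ) d = ∅ := by
      rw [Set.eq_empty_iff_forall_notMem]
      rintro w ⟨h1, _⟩
      exact hN₀ m hm w h1
    rw [this, Set.ncard_empty, Nat.cast_zero]
  by_contra hcon
  push Not at hcon
  -- a sequence of levels and points
  have hfreq : ∃ᶠ N in Filter.atTop, ∃ w : σ → ℕ,
      (∀ ρ, h ρ + lvl M N ρ ≤ wv M w ρ) ∧ ∀ ρ ∈ S, wv M w ρ = h ρ + lvl M N ρ :=
    Filter.frequently_atTop.2 fun a => by
      obtain ⟨N, hN, w, hw⟩ := hcon a
      exact ⟨N, hN, w, hw⟩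
  obtain ⟨φ, hφ, hφ2⟩ := Filter.extraction_of_frequently_atTop hfreq
  choose w hw1 hw2 using hφ2
  let g : ℕ → (σ → ℕ) × (Wa M → ℕ) := fun k =>
    (w k, fun ρ => wv M (w k) ρ - (h ρ + lvl M (φ k) ρ))
  obtain ⟨m, m', hmm, hle⟩ := (wellQuasiOrdered_le (α := (σ → ℕ) × (Wa M → ℕ))) g
  have hle1 : ∀ i, w m i ≤ w m' i := fun i => hle.1 i
  have hle2 : ∀ ρ, wv M (w m) ρ - (h ρ + lvl M (φ m) ρ)
      ≤ wv M (w m') ρ - (h ρ + lvl M (φ m') ρ) := fun ρ => hle.2 ρ
  have hφm : φ m < φ m' := hφ hmm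
  have hwm : ∀ ρ, wv M (w m') ρ = wv M (fun i => w m' i - w m i) ρ + wv M (w m) ρ := by
    intro ρ
    rw [← wv_add]
    congr 1
    funext i
    exact (Nat.sub_add_cancel (hle1 i)).symm
  have hsl : ∀ ρ, slk M (fun i => w m' i - w m i) (φ m' - φ m) ρ
      = ((wv M (w m') ρ : ℤ) - (h ρ + lvl M (φ m') ρ)) - ((wv M (w m) ρ : ℤ)
        - (h ρ + lvl M (φ m) ρ)) := by
    intro ρ
    have h1 := hwm ρ
    rcases ρ with i | α
    · show (((w m' i - w m i : ℕ)) : ℤ) = ((w m' i : ℤ) - (h _ + (0 : ℕ))) - ((w m i : ℤ)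
        - (h _ + (0 : ℕ)))
      rw [Nat.cast_sub (hle1 i)]
      ring
    · show ((dot (fun i => w m' i - w m i) (α : σ →₀ ℕ) : ℕ) : ℤ) - ((φ m' - φ m : ℕ) : ℤ)
        = ((wv M (w m') (Sum.inr α) : ℤ) - (h _ + (φ m' : ℕ))) - ((wv M (w m) (Sum.inr α) : ℤ)
        - (h _ + (φ m : ℕ)))
      rw [h1]
      rw [Nat.cast_sub hφm.le]
      push_cast
      show ((dot (fun i => w m' i - w m i) (α : σ →₀ ℕ) : ℕ) : ℤ) - _ = ((dot (fun i => w m' i - w m i) (α : σ →₀ ℕ) : ℕ) : ℤ) + _ - _ - _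
      ring
  have hK : InK M S (fun i => w m' i - w m i) (φ m' - φ m) := by
    refine ⟨fun ρ => ?_, fun ρ hρ => ?_⟩
    · rw [hsl]
      have h1 := hw1 m ρ
      have h2 := hw1 m' ρ
      have h3 := hle2 ρ
      omega
    · rw [hsl, hw2 m ρ hρ, hw2 m' ρ hρ]
      push_cast
      ring
  have := (hS _ _ hK).2
  omega

/-! ### open cells -/

open scoped Classical in
/-- the walls of a cell -/
noncomputable def Sw (I : Finset (σ →₀ ℕ)) (J : Finset σ) : Finset (Wa M) :=
  univ.filter fun ρ => match ρ with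
    | Sum.inl i => i ∈ J
    | Sum.inr α => (α : σ →₀ ℕ) ∈ I

theorem mem_Sw_inl (I : Finset (σ →₀ ℕ)) (J : Finset σ) (i : σ) :
    (Sum.inl i : Wa M) ∈ Sw M I J ↔ i ∈ J := by
  simp [Sw]

theorem mem_Sw_inr (I : Finset (σ →₀ ℕ)) (J : Finset σ) (α : M) :
    (Sum.inr α : Wa M) ∈ Sw M I J ↔ (α : σ →₀ ℕ) ∈ I := by
  simp [Sw]

open scoped Classical in
/-- the exponent of the walls which do not belong to the cell -/
noncomputable def eC (S : Finset (Wa M)) : Wa M →₀ ℕ :=
  Finsupp.equivFunOnFinite.symm fun ρ => if ρ ∈ S then 0 else 1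

theorem cellP_eq (K : Type) [CommRing K] (I : Finset (σ →₀ ℕ)) (J : Finset σ) :
    cellP M K I J = MvPolynomial.monomial (eC M (Sw M I J)) 1 * Xs M K (Sw M I J) := by
  classical
  have h1 : cellP M K I J = ∏ ρ : Wa M, if ρ ∈ Sw M I J then 1 - MvPolynomial.X ρ
      else MvPolynomial.X ρ := by
    rw [Fintype.prod_sum_type, cellP, mul_comm]
    congr 1
    · refine Finset.prod_congr rfl fun i _ => ?_
      by_cases h : i ∈ J
      · rw [if_pos h, if_pos ((mem_Sw_inl M I J i).2 h)]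
      · rw [if_neg h, if_neg (fun h' => h ((mem_Sw_inl M I J i).1 h'))]
    · refine Finset.prod_congr rfl fun α _ => ?_
      by_cases h : (α : σ →₀ ℕ) ∈ I
      · rw [if_pos h, if_pos ((mem_Sw_inr M I J α).2 h)]
      · rw [if_neg h, if_neg (fun h' => h ((mem_Sw_inr M I J α).1 h'))]
  have h2 : (MvPolynomial.monomial (eC M (Sw M I J)) 1 : MvPolynomial (Wa M) K)
      = ∏ ρ : Wa M, if ρ ∈ Sw M I J then 1 else MvPolynomial.X ρ := by
    rw [MvPolynomial.monomial_eq, map_one, one_mul,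
      Finsupp.prod_fintype _ _ (fun i => pow_zero _)]
    refine Finset.prod_congr rfl fun ρ _ => ?_
    show MvPolynomial.X ρ ^ (if ρ ∈ Sw M I J then 0 else 1) = _
    split_ifs
    · exact pow_zero _
    · exact pow_one _
  have h3 : Xs M K (Sw M I J) = ∏ ρ : Wa M, if ρ ∈ Sw M I J then 1 - MvPolynomial.X ρ else 1 := by
    rw [Xs, Finset.prod_ite_mem, Finset.univ_inter]
  rw [h1, h2, h3, ← Finset.prod_mul_distrib]
  refine Finset.prod_congr rfl fun ρ _ => ?_
  split_ifs
  · rw [one_mul]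
  · rw [mul_one]

theorem val_cellP (I : Finset (σ →₀ ℕ)) (J : Finset σ) (hI : I ⊆ M) (hne : I.Nonempty) (N : ℕ) :
    val M (cellP M (PowerSeries ℤ) I J) 0 N = gfc M I J N := by
  classical
  rw [cellP_eq, val_monomial_mul, one_mul, val_Xs]
  refine PowerSeries.ext fun d => ?_
  rw [gfS, gfc, PowerSeries.coeff_mk, PowerSeries.coeff_mk]
  have : pts M (Sw M I J) (fun ρ => (0 : Wa M → ℕ) ρ + (eC M (Sw M I J)) ρ + lvl M N ρ) d
      = {u : σ → ℕ | CellS M I J u N ∧ ∑ i, u i = d} := by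
    ext w
    have e1 : ∀ i, (eC M (Sw M I J)) (Sum.inl i) = if i ∈ J then 0 else 1 := by
      intro i
      show (if (Sum.inl i : Wa M) ∈ Sw M I J then 0 else 1) = _
      simp only [mem_Sw_inl]
    have e2 : ∀ α : M, (eC M (Sw M I J)) (Sum.inr α) = if (α : σ →₀ ℕ) ∈ I then 0 else 1 := by
      intro α
      show (if (Sum.inr α : Wa M) ∈ Sw M I J then 0 else 1) = _
      simp only [mem_Sw_inr]
    constructor
    · rintro ⟨⟨h1, h2⟩, h3⟩
      refine ⟨⟨fun i => ⟨fun h4 => ?_, fun h4 => ?_⟩, hI, hne, fun α hα => ?_,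
        fun β hβ hβI => ?_⟩, h3⟩
      · by_contra hi
        have h5 : (0 : ℕ) + (eC M (Sw M I J)) (Sum.inl i) + 0 ≤ w i := h1 (Sum.inl i)
        rw [e1, if_neg hi] at h5
        omega
      · have h5 : w i = (0 : ℕ) + (eC M (Sw M I J)) (Sum.inl i) + 0 :=
          h2 (Sum.inl i) ((mem_Sw_inl M I J i).2 h4)
        rw [e1, if_pos h4] at h5
        omega
      · have h5 : dot w α = (0 : ℕ) + (eC M (Sw M I J)) (Sum.inr ⟨α, hI hα⟩) + N :=
          h2 (Sum.inr ⟨α, hI hα⟩) ((mem_Sw_inr M I J _).2 hα)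
        rw [e2, if_pos hα] at h5
        omega
      · have h5 : (0 : ℕ) + (eC M (Sw M I J)) (Sum.inr ⟨β, hβ⟩) + N ≤ dot w β :=
          h1 (Sum.inr ⟨β, hβ⟩)
        rw [e2, if_neg hβI] at h5
        omega
    · rintro ⟨h1, h3⟩
      refine ⟨⟨fun ρ => ?_, fun ρ hρ => ?_⟩, h3⟩
      · rcases ρ with i | α
        · show (0 : ℕ) + (eC M (Sw M I J)) (Sum.inl i) + 0 ≤ w i
          rw [e1]
          split_ifs with h4
          · omega
          · have h5 : w i ≠ 0 := fun h => h4 ((h1.zero i).1 h)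
            omega
        · show (0 : ℕ) + (eC M (Sw M I J)) (Sum.inr α) + N ≤ dot w (α : σ →₀ ℕ)
          rw [e2]
          split_ifs with h4
          · have := h1.eq α h4
            omega
          · have := h1.lt α α.2 h4
            omega
      · rcases ρ with i | α
        · have h4 := (mem_Sw_inl M I J i).1 hρ
          show w i = (0 : ℕ) + (eC M (Sw M I J)) (Sum.inl i) + 0
          rw [e1, if_pos h4]
          have := (h1.zero i).2 h4
          omega
        · have h4 := (mem_Sw_inr M I J α).1 hρ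
          show dot w (α : σ →₀ ℕ) = (0 : ℕ) + (eC M (Sw M I J)) (Sum.inr α) + N
          rw [e2, if_pos h4]
          have := h1.eq α h4
          omega
  rw [this]
  rfl

end zg

/-- MODULE ZG -/
theorem zg : ZGStmt := by
  intro σ _ M hM
  refine ⟨fun P => ⟨RI M P, Ev_mem M P, Xs_mem M P, fun r N hP p hp h => ?_, fun p hp => hp 0⟩,
    val_add M, val_C_mul M, fun p N => val_ET_mul M p 0 N, fun I J hI hne N =>
      val_cellP M I J hI hne N⟩
  refine .step _ r N hP ((hp h).congr fun m => ?_)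
  rw [sub_mul, val_sub, val_ET_pow_mul, val_C_mul]

end Pool.Agent.Helper30_Simp2.H40
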