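import Pool.Agent.Helper40_Simp2.Ratpt

/-!
# Module STR: the structure of a flat cell which is not `UB₁`
-/

set_option autoImplicit false
set_option linter.unusedSectionVars false

namespace Pool.Agent.Helper30_Simp2.H40

open Finset Pool.Agent.Helper6_Mono Pool.Agent.Helper30_Simp

section str

variable {σ : Type} [Fintype σ]

/-- a flat cell which is not `UB₁` with the largest number of tight walls -/
structure Good (M : Finset (σ →₀ ℕ)) (κ : σ → ℕ) (N : ℕ) : Prop where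
  hN : 0 < N
  ge : ∀ α ∈ M, N ≤ dot κ α
  ex : ∃ α ∈ M, dot κ α = N
  flat : ∀ v : σ → ℚ, (∀ i, κ i = 0 → v i = 0) →
    (∀ α ∈ face M κ, ∑ i, v i * (α i : ℚ) = 0) → ∑ i, v i = 0
  max : ∀ (w : σ → ℕ) (N' : ℕ), 0 < N' → (∀ i, κ i = 0 → w i = 0) → (∀ β ∈ M, N' ≤ dot w β) →
    (∀ α ∈ face M κ, dot w α = N') →
    ((∃ i, κ i ≠ 0 ∧ w i = 0) ∨ ∃ β ∈ M, β ∉ face M κ ∧ dot w β = N') → UB1 M w
  nub : ¬ UB1 M κ

theorem face_iff_of {M : Finset (σ →₀ ℕ)} {κ : σ → ℕ} {N : ℕ} (ge : ∀ α ∈ M, N ≤ dot κ α)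
    (ex : ∃ α ∈ M, dot κ α = N) (α : σ →₀ ℕ) : α ∈ face M κ ↔ α ∈ M ∧ dot κ α = N := by
  constructor
  · rintro ⟨h1, h2⟩
    obtain ⟨β, hβ, hβN⟩ := ex
    exact ⟨h1, le_antisymm (hβN ▸ h2 β hβ) (ge α h1)⟩
  · rintro ⟨h1, h2⟩
    exact ⟨h1, fun β hβ => h2.trans_le (ge β hβ)⟩

theorem Good.face_iff {M : Finset (σ →₀ ℕ)} {κ : σ → ℕ} {N : ℕ} (G : Good M κ N) (α : σ →₀ ℕ) :
    α ∈ face M κ ↔ α ∈ M ∧ dot κ α = N := face_iff_of G.ge G.ex α

theorem flat_of {M : Finset (σ →₀ ℕ)} {x : ℚ} {S : Finset (Wa M)} (hF : Flat M x S)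
    {κ : σ → ℕ} {N : ℕ} (hK : InK M S κ N) (hface : ∀ α, α ∈ face M κ ↔ α ∈ M ∧ dot κ α = N)
    (v : σ → ℚ) (hv : ∀ i, κ i = 0 → v i = 0)
    (hv2 : ∀ α ∈ face M κ, ∑ i, v i * (α i : ℚ) = 0) : ∑ i, v i = 0 := by
  classical
  have hge : ∀ α ∈ M, N ≤ dot κ α := by
    intro α hα
    have h1 := hK.1 (Sum.inr ⟨α, hα⟩)
    have h2 : (0 : ℤ) ≤ ((dot κ α : ℕ) : ℤ) - N := h1
    omega
  set D : ℕ := ∏ i, (v i).den with hD
  have hD0 : 0 < D := Finset.prod_pos fun i _ => (v i).den_pos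
  have hz : ∀ i, ∃ z : ℤ, (z : ℚ) = D * v i := by
    intro i
    refine ⟨(v i).num * ∏ j ∈ univ.erase i, ((v j).den : ℤ), ?_⟩
    have h3 : ((v i).num : ℚ) = (v i).den * v i := by
      rw [mul_comm]
      exact (Rat.mul_den_eq_num (v i)).symm
    rw [hD, ← Finset.mul_prod_erase univ (fun j => (v j).den) (mem_univ i)]
    push_cast
    rw [h3]
    ring
  choose z hz using hz
  set K : ℕ := ∑ i, (z i).natAbs + ∑ β ∈ M, (∑ i, z i * (β i : ℤ)).natAbs with hKdef
  have hK1 : ∀ i, (z i).natAbs ≤ K := fun i =>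
    (Finset.single_le_sum (f := fun i => (z i).natAbs) (fun _ _ => Nat.zero_le _)
      (mem_univ i)).trans (Nat.le_add_right _ _)
  have hK2 : ∀ β ∈ M, (∑ i, z i * (β i : ℤ)).natAbs ≤ K := fun β hβ =>
    (Finset.single_le_sum (f := fun β : σ →₀ ℕ => (∑ i, z i * (β i : ℤ)).natAbs)
      (fun _ _ => Nat.zero_le _) hβ).trans (Nat.le_add_left _ _)
  have hz0 : ∀ i, κ i = 0 → z i = 0 := by
    intro i hi
    have : (z i : ℚ) = 0 := by rw [hz, hv i hi, mul_zero]
    exact_mod_cast this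
  have hzface : ∀ α ∈ face M κ, ∑ i, z i * (α i : ℤ) = 0 := by
    intro α hα
    have h1 : ((∑ i, z i * (α i : ℤ) : ℤ) : ℚ) = D * ∑ i, v i * (α i : ℚ) := by
      push_cast
      rw [Finset.mul_sum]
      refine Finset.sum_congr rfl fun i _ => ?_
      rw [hz]
      ring
    rw [hv2 α hα, mul_zero] at h1
    exact_mod_cast h1
  have hpos : ∀ i, 0 ≤ (K : ℤ) * κ i + z i := by
    intro i
    by_cases hi : κ i = 0
    · rw [hi, hz0 i hi]; simp
    · have h1 : (1 : ℤ) ≤ κ i := by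
        have := Nat.pos_of_ne_zero hi
        exact_mod_cast this
      have h2 := hK1 i
      have h3 : -(K : ℤ) ≤ z i := by omega
      nlinarith
  let κ' : σ → ℕ := fun i => ((K : ℤ) * κ i + z i).toNat
  have hκ' : ∀ i, (κ' i : ℤ) = (K : ℤ) * κ i + z i := fun i => Int.toNat_of_nonneg (hpos i)
  have hdot : ∀ β : σ →₀ ℕ, ((dot κ' β : ℕ) : ℤ) = K * (dot κ β : ℕ) + ∑ i, z i * (β i : ℤ) := by
    intro β
    unfold dot
    push_cast
    rw [Finset.mul_sum, ← Finset.sum_add_distrib]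
    refine Finset.sum_congr rfl fun i _ => ?_
    rw [hκ']
    ring
  have hK' : InK M S κ' (K * N) := by
    refine ⟨fun ρ => ?_, fun ρ hρ => ?_⟩
    · rcases ρ with i | α
      · show (0 : ℤ) ≤ ((κ' i : ℕ) : ℤ)
        exact Int.natCast_nonneg _
      · show (0 : ℤ) ≤ ((dot κ' (α : σ →₀ ℕ) : ℕ) : ℤ) - ((K * N : ℕ) : ℤ)
        rw [hdot]
        push_cast
        by_cases hα : (α : σ →₀ ℕ) ∈ face M κ
        · rw [hzface _ hα, ((hface _).1 hα).2]
          simp
        · have h1 : N < dot κ (α : σ →₀ ℕ) := lt_of_le_of_ne (hge _ α.2)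
            (fun h => hα ((hface _).2 ⟨α.2, h.symm⟩))
          have h2 := hK2 _ α.2
          have h3 : ((N : ℤ) + 1) ≤ ((dot κ (α : σ →₀ ℕ) : ℕ) : ℤ) := by exact_mod_cast h1
          have h4 : -(K : ℤ) ≤ ∑ i, z i * ((α : σ →₀ ℕ) i : ℤ) := by omega
          nlinarith
    · have h0 := hK.2 ρ hρ
      rcases ρ with i | α
      · have h1 : ((κ i : ℕ) : ℤ) = 0 := h0
        have h2 : κ i = 0 := by exact_mod_cast h1
        show ((κ' i : ℕ) : ℤ) = 0
        rw [hκ', h2, hz0 i h2]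
        simp
      · have h1 : ((dot κ (α : σ →₀ ℕ) : ℕ) : ℤ) - N = 0 := h0
        have h2 : dot κ (α : σ →₀ ℕ) = N := by omega
        show ((dot κ' (α : σ →₀ ℕ) : ℕ) : ℤ) - ((K * N : ℕ) : ℤ) = 0
        rw [hdot, hzface _ ((hface _).2 ⟨α.2, h2⟩), h2]
        push_cast
        ring
  have h1 := hF _ _ hK'
  have h2 := hF _ _ hK
  have h3 : ((∑ i, κ' i : ℕ) : ℚ) = K * ((∑ i, κ i : ℕ) : ℚ) + D * ∑ i, v i := by
    push_cast
    rw [Finset.mul_sum, Finset.mul_sum, ← Finset.sum_add_distrib]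
    refine Finset.sum_congr rfl fun i _ => ?_
    have h4 : ((κ' i : ℤ) : ℚ) = (((K : ℤ) * κ i + z i : ℤ) : ℚ) := by rw [hκ']
    push_cast at h4
    rw [h4, hz]
  rw [h1, h2] at h3
  push_cast at h3
  have h5 : (D : ℚ) * ∑ i, v i = 0 := by linarith
  rcases mul_eq_zero.1 h5 with h6 | h6
  · exact absurd h6 (by exact_mod_cast hD0.ne')
  · exact h6

/-- the tight walls -/
noncomputable def act (M : Finset (σ →₀ ℕ)) (u : σ → ℕ) (N : ℕ) : Finset (Wa M) := by
  classical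
  exact univ.filter fun ρ => slk M u N ρ = 0

theorem mem_act (M : Finset (σ →₀ ℕ)) (u : σ → ℕ) (N : ℕ) (ρ : Wa M) :
    ρ ∈ act M u N ↔ slk M u N ρ = 0 := by
  simp [act]

theorem exists_good (M : Finset (σ →₀ ℕ)) (x : ℚ) (h : ¬ AllUB M x) :
    ∃ (κ : σ → ℕ) (N : ℕ), Good M κ N ∧ ((∑ i, κ i : ℕ) : ℚ) = x * N := by
  classical
  unfold AllUB at h
  push Not at h
  obtain ⟨S, u, N₀, hF, hK, hu, hn⟩ := h
  let T : Set ℕ := {k | ∃ (u : σ → ℕ) (N : ℕ), InK M S u N ∧ u ≠ 0 ∧ ¬ UB1 M u ∧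
    (act M u N).card = k}
  have hT : T.Nonempty := ⟨_, u, N₀, hK, hu, hn, rfl⟩
  have hTb : BddAbove T := by
    refine ⟨Fintype.card (Wa M), ?_⟩
    rintro k ⟨u, N, _, _, _, rfl⟩
    exact Finset.card_le_univ _
  obtain ⟨κ, N, hK', hκ0, hnub, hcard⟩ := Nat.sSup_mem hT hTb
  have hmax : ∀ (w : σ → ℕ) (N' : ℕ), InK M S w N' → w ≠ 0 → ¬ UB1 M w →
      (act M w N').card ≤ (act M κ N).card := by
    intro w N' h1 h2 h3
    rw [hcard]
    exact le_csSup hTb ⟨w, N', h1, h2, h3, rfl⟩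
  have hflat := hF κ N hK'
  have hsum : 0 < ∑ i, κ i := by
    by_contra hcon
    apply hκ0
    funext i
    have h1 : κ i ≤ ∑ i, κ i := Finset.single_le_sum (f := κ) (fun _ _ => Nat.zero_le _)
      (mem_univ i)
    show κ i = 0
    omega
  have hsumQ : (0 : ℚ) < ((∑ i, κ i : ℕ) : ℚ) := by exact_mod_cast hsum
  have hN : 0 < N := by
    by_contra hcon
    have h1 : N = 0 := by omega
    rw [hflat, h1] at hsumQ
    simp at hsumQ
  have hge : ∀ α ∈ M, N ≤ dot κ α := by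
    intro α hα
    have h2 : (0 : ℤ) ≤ ((dot κ α : ℕ) : ℤ) - N := hK'.1 (Sum.inr ⟨α, hα⟩)
    omega
  have hex : ∃ α ∈ M, dot κ α = N := by
    by_contra hcon
    push Not at hcon
    have h1 : InK M S κ (N - 1) := by
      refine ⟨fun ρ => ?_, fun ρ hρ => ?_⟩
      · rcases ρ with i | α
        · exact hK'.1 (Sum.inl i)
        · show (0 : ℤ) ≤ ((dot κ (α : σ →₀ ℕ) : ℕ) : ℤ) - ((N - 1 : ℕ) : ℤ)
          have := hge _ α.2
          omega
      · rcases ρ with i | α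
        · exact hK'.2 (Sum.inl i) hρ
        · have h2 : ((dot κ (α : σ →₀ ℕ) : ℕ) : ℤ) - N = 0 := hK'.2 _ hρ
          exact absurd (by omega) (hcon _ α.2)
    have h2 := hF κ _ h1
    rw [hflat] at h2
    have h3 : ((N - 1 : ℕ) : ℚ) = N - 1 := by
      rw [Nat.cast_sub (by omega)]
      simp
    rw [h3] at h2
    have h4 : x = 0 := by linarith
    rw [hflat, h4, zero_mul] at hsumQ
    exact lt_irrefl _ hsumQ
  have hface := face_iff_of hge hex
  refine ⟨κ, N, ⟨hN, hge, hex, flat_of hF hK' hface, ?_, hnub⟩, hflat⟩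
  intro w N' hN' hw0 hwM hwf hextra
  by_contra hub
  have hInK : InK M S w N' := by
    refine ⟨fun ρ => ?_, fun ρ hρ => ?_⟩
    · rcases ρ with i | α
      · show (0 : ℤ) ≤ ((w i : ℕ) : ℤ)
        exact Int.natCast_nonneg _
      · show (0 : ℤ) ≤ ((dot w (α : σ →₀ ℕ) : ℕ) : ℤ) - N'
        have := hwM _ α.2
        omega
    · have h0 := hK'.2 ρ hρ
      rcases ρ with i | α
      · have h1 : ((κ i : ℕ) : ℤ) = 0 := h0
        show ((w i : ℕ) : ℤ) = 0
        rw [hw0 i (by exact_mod_cast h1)]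
        rfl
      · have h1 : ((dot κ (α : σ →₀ ℕ) : ℕ) : ℤ) - N = 0 := h0
        have h2 := hwf _ ((hface _).2 ⟨α.2, by omega⟩)
        show ((dot w (α : σ →₀ ℕ) : ℕ) : ℤ) - N' = 0
        rw [h2]
        ring
  have hw : w ≠ 0 := by
    rintro rfl
    obtain ⟨α, hα, _⟩ := hex
    have h1 := hwM α hα
    have h2 : dot (0 : σ → ℕ) α = 0 := by
      unfold dot
      simp
    omega
  have h1 := hmax w N' hInK hw hub
  have h2 : act M κ N ⊂ act M w N' := by
    rw [Finset.ssubset_iff_subset_ne]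
    refine ⟨fun ρ hρ => ?_, fun heq => ?_⟩
    · rw [mem_act] at hρ ⊢
      rcases ρ with i | α
      · have h1 : ((κ i : ℕ) : ℤ) = 0 := hρ
        show ((w i : ℕ) : ℤ) = 0
        rw [hw0 i (by exact_mod_cast h1)]
        rfl
      · have h1 : ((dot κ (α : σ →₀ ℕ) : ℕ) : ℤ) - N = 0 := hρ
        have h2 := hwf _ ((hface _).2 ⟨α.2, by omega⟩)
        show ((dot w (α : σ →₀ ℕ) : ℕ) : ℤ) - N' = 0
        rw [h2]
        ring
    · rcases hextra with ⟨i, hi1, hi2⟩ | ⟨β, hβ, hβ1, hβ2⟩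
      · have h3 : (Sum.inl i : Wa M) ∈ act M w N' := by
          rw [mem_act]
          show ((w i : ℕ) : ℤ) = 0
          rw [hi2]
          rfl
        rw [← heq, mem_act] at h3
        have h4 : ((κ i : ℕ) : ℤ) = 0 := h3
        exact hi1 (by exact_mod_cast h4)
      · have h3 : (Sum.inr ⟨β, hβ⟩ : Wa M) ∈ act M w N' := by
          rw [mem_act]
          show ((dot w β : ℕ) : ℤ) - N' = 0
          rw [hβ2]
          ring
        rw [← heq, mem_act] at h3
        have h4 : ((dot κ β : ℕ) : ℤ) - N = 0 := h3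
        exact hβ1 ((hface _).2 ⟨hβ, by omega⟩)
  have h3 := Finset.card_lt_card h2
  omega

/-- real points of the flat cell -/
def PP (M : Finset (σ →₀ ℕ)) (κ : σ → ℕ) (N : ℕ) (w : σ → ℝ) : Prop :=
  (∀ i, 0 ≤ w i) ∧ (∀ i, κ i = 0 → w i = 0) ∧ (∀ β ∈ M, (N : ℝ) ≤ dot w β) ∧
    ∀ α ∈ face M κ, dot w α = N

/-- at a real point with an additional tight wall some monomial has a unique direction -/
theorem Good.real {M : Finset (σ →₀ ℕ)} {κ : σ → ℕ} {N : ℕ} (G : Good M κ N) {w : σ → ℝ}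
    (hw : PP M κ N w)
    (hx : (∃ i, κ i ≠ 0 ∧ w i = 0) ∨ ∃ β ∈ M, β ∉ face M κ ∧ dot w β = N) :
    ∃ A ∈ face M κ, ∃ j, Dir M κ A j ∧ FreeDir M N w A j ∧
      ∀ l, Dir M κ A l → FreeDir M N w A l → l = j := by
  classical
  obtain ⟨w', N', hN', h0, hM⟩ := ratpt σ M w N (by exact_mod_cast G.hN) hw.1 hw.2.2.1
  have hub := G.max w' N' hN' (fun i hi => (h0 i).2 (hw.2.1 i hi)) (fun β hβ => (hM β hβ).1)
    (fun α hα => (hM α hα.1).2.2 (hw.2.2.2 α hα)) (by
      rcases hx with ⟨i, hi, hi'⟩ | ⟨β, hβ, hβ', hβ''⟩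
      · exact Or.inl ⟨i, hi, (h0 i).2 hi'⟩
      · exact Or.inr ⟨β, hβ, hβ', (hM β hβ).2.2 hβ''⟩)
  obtain ⟨α₀, hα₀, hα₀N⟩ := G.ex
  have hα₀f : α₀ ∈ face M κ := (G.face_iff α₀).2 ⟨hα₀, hα₀N⟩
  have hface' := face_iff_of (N := N') (fun β hβ => (hM β hβ).1)
    ⟨α₀, hα₀, (hM α₀ hα₀).2.2 (hw.2.2.2 α₀ hα₀f)⟩
  obtain ⟨A, hA, j, ⟨hj0, hAj, hAβ⟩, huniq⟩ := hub
  have hAM : A ∈ M := hA.1
  have hfree : ∀ β ∈ M, dot w β = N → β ≠ A → β j = 0 := fun β hβ h1 h2 =>
    hAβ β ((hface' β).2 ⟨hβ, (hM β hβ).2.2 h1⟩) h2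
  have hκj : κ j ≠ 0 := fun h => hj0 ((h0 j).2 (hw.2.1 j h))
  have hAf : A ∈ face M κ := by
    by_contra hcon
    have h1 := G.flat (fun i => if i = j then 1 else 0) (fun i hi => by
      rw [if_neg]
      rintro rfl
      exact hκj hi) (fun α hα => by
        have h2 : α j = 0 := hfree α hα.1 (hw.2.2.2 α hα) (by rintro rfl; exact hcon hα)
        rw [Finset.sum_eq_single j]
        · rw [h2]; simp
        · intro i _ hi
          rw [if_neg hi, zero_mul]
        · intro h; exact absurd (mem_univ j) h)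
    simp at h1
  refine ⟨A, hAf, j, ⟨hκj, hAj, fun β hβ h1 => hfree β hβ.1 (hw.2.2.2 β hβ) h1⟩,
    ⟨fun h => hj0 ((h0 j).2 h), hfree⟩, fun l hl hl' => huniq l ⟨fun h => hl'.1 ((h0 l).1 h),
      hl.2.1, fun β hβ h1 => hl'.2 β hβ.1 ?_ h1⟩⟩
  exact (hM β hβ.1).2.1 ((hface' β).1 hβ).2

theorem Good.realflat {M : Finset (σ →₀ ℕ)} {κ : σ → ℕ} {N : ℕ} (G : Good M κ N) (v : σ → ℝ)
    (hv : ∀ i, κ i = 0 → v i = 0) (hv2 : ∀ α ∈ face M κ, ∑ i, v i * (α i : ℝ) = 0) :
    ∑ i, v i = 0 := by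
  by_contra hne
  obtain ⟨φ, hφ⟩ := exists_pos_map {|∑ i, v i|} (by
    intro x hx
    rw [Finset.mem_singleton.1 hx]
    exact abs_pos.2 hne)
  have hφ0 : φ (∑ i, v i) ≠ 0 := by
    intro h
    have h1 := hφ _ (Finset.mem_singleton_self _)
    rcases abs_choice (∑ i, v i) with h2 | h2
    · rw [h2, h] at h1
      exact lt_irrefl _ h1
    · rw [h2, map_neg, h, neg_zero] at h1
      exact lt_irrefl _ h1
  apply hφ0
  rw [map_sum]
  refine G.flat (fun i => φ (v i)) (fun i hi => by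
    show φ (v i) = 0
    rw [hv i hi, map_zero]) (fun α hα => ?_)
  have h1 := congrArg φ (hv2 α hα)
  rw [map_sum, map_zero] at h1
  rw [← h1]
  refine Finset.sum_congr rfl fun i _ => ?_
  have : v i * (α i : ℝ) = (α i) • v i := by
    rw [nsmul_eq_mul, mul_comm]
  rw [this, map_nsmul, nsmul_eq_mul, mul_comm]

/-- a common small positive number -/
theorem exists_eps {ι : Type} (s : Finset ι) (a b : ι → ℝ) (ha : ∀ i ∈ s, 0 < a i) :
    ∃ ε : ℝ, 0 < ε ∧ ∀ i ∈ s, ε * |b i| ≤ a i := by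
  classical
  induction s using Finset.induction_on with
  | empty => exact ⟨1, one_pos, by simp⟩
  | insert i s hi ih =>
    obtain ⟨ε, h1, h2⟩ := ih fun j hj => ha j (Finset.mem_insert_of_mem hj)
    have hai := ha i (Finset.mem_insert_self _ _)
    have hb := abs_nonneg (b i)
    refine ⟨min ε (a i / (1 + |b i|)), lt_min h1 (by positivity), fun j hj => ?_⟩
    rcases Finset.mem_insert.1 hj with rfl | hj
    · refine (mul_le_mul_of_nonneg_right (min_le_right _ _) (abs_nonneg _)).trans ?_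
      rw [div_mul_eq_mul_div, div_le_iff₀ (by positivity)]
      nlinarith
    · exact (mul_le_mul_of_nonneg_right (min_le_left _ _) (abs_nonneg _)).trans (h2 j hj)

theorem isCompact_PP {M : Finset (σ →₀ ℕ)} {κ : σ → ℕ} {N : ℕ} (G : Good M κ N) :
    IsCompact {w : σ → ℝ | PP M κ N w} := by
  refine IsCompact.of_isClosed_subset (isCompact_Icc (a := (0 : σ → ℝ))
    (b := fun _ => ((∑ i, κ i : ℕ) : ℝ))) ?_ ?_
  · have hd : ∀ β : σ →₀ ℕ, Continuous fun w : σ → ℝ => dot w β := by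
      intro β
      unfold dot
      exact continuous_finsetSum _ fun i _ => (continuous_apply i).mul continuous_const
    have : {w : σ → ℝ | PP M κ N w} = (⋂ i, {w : σ → ℝ | 0 ≤ w i}) ∩
        ((⋂ i, ⋂ (_ : κ i = 0), {w : σ → ℝ | w i = 0}) ∩
        ((⋂ β, ⋂ (_ : β ∈ M), {w : σ → ℝ | (N : ℝ) ≤ dot w β}) ∩
          ⋂ α, ⋂ (_ : α ∈ face M κ), {w : σ → ℝ | dot w α = N})) := by
      ext w
      simp only [Set.mem_ofPred_eq, Set.mem_inter_iff, Set.mem_iInter]
      rfl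
    rw [this]
    refine (isClosed_iInter fun i => isClosed_le continuous_const (continuous_apply i)).inter
      ((isClosed_iInter fun i => isClosed_iInter fun _ =>
        isClosed_eq (continuous_apply i) continuous_const).inter
      ((isClosed_iInter fun β => isClosed_iInter fun _ =>
        isClosed_le continuous_const (hd β)).inter
        (isClosed_iInter fun β => isClosed_iInter fun _ =>
          isClosed_eq (hd β) continuous_const)))
  · rintro w ⟨h1, h2, _, h4⟩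
    have h5 : ∑ i, (w i - (κ i : ℝ)) = 0 := by
      refine G.realflat _ (fun i hi => ?_) (fun α hα => ?_)
      · rw [h2 i hi, hi]; simp
      · have h6 : ((dot κ α : ℕ) : ℝ) = N := by rw [((G.face_iff α).1 hα).2]
        have h7 := h4 α hα
        unfold dot at h6 h7
        push_cast at h6
        simp only [sub_mul]
        rw [Finset.sum_sub_distrib, h6, h7, sub_self]
    rw [Finset.sum_sub_distrib] at h5
    refine ⟨h1, fun i => ?_⟩
    have h6 : w i ≤ ∑ i, w i := Finset.single_le_sum (f := w) (fun j _ => h1 j) (mem_univ i)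
    show w i ≤ ((∑ i, κ i : ℕ) : ℝ)
    push_cast
    linarith

open scoped Classical in
/-- the tight walls of a real point -/
noncomputable def actR (M : Finset (σ →₀ ℕ)) (N : ℕ) (w : σ → ℝ) : Finset (Wa M) :=
  univ.filter fun ρ => match ρ with
    | Sum.inl i => w i = 0
    | Sum.inr α => dot w (α : σ →₀ ℕ) = N

theorem mem_actR_inl (M : Finset (σ →₀ ℕ)) (N : ℕ) (w : σ → ℝ) (i : σ) :
    (Sum.inl i : Wa M) ∈ actR M N w ↔ w i = 0 := by
  simp [actR]

theorem mem_actR_inr (M : Finset (σ →₀ ℕ)) (N : ℕ) (w : σ → ℝ) (α : M) :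
    (Sum.inr α : Wa M) ∈ actR M N w ↔ dot w (α : σ →₀ ℕ) = N := by
  simp [actR]

theorem dot_add_smul (w v : σ → ℝ) (t : ℝ) (β : σ →₀ ℕ) :
    dot (fun i => w i + t * v i) β = dot w β + t * ∑ i, v i * (β i : ℝ) := by
  unfold dot
  rw [Finset.mul_sum, ← Finset.sum_add_distrib]
  exact Finset.sum_congr rfl fun i _ => by ring

open scoped Classical in
theorem sum_dv (j' j : σ) (a : σ → ℝ) :
    ∑ i, ((if i = j' then (1 : ℝ) else 0) - if i = j then 1 else 0) * a i = a j' - a j := by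
  simp only [sub_mul, ite_mul, one_mul, zero_mul]
  rw [Finset.sum_sub_distrib, Finset.sum_ite_eq' univ j' a, Finset.sum_ite_eq' univ j a]
  simp

/-- the main step: no functional without a forced direction -/
theorem Good.main {M : Finset (σ →₀ ℕ)} {κ : σ → ℕ} {N : ℕ} (G : Good M κ N) (c : σ → ℚ)
    (hc : ∀ A ∈ face M κ, ∀ j, Dir M κ A j → ∃ j', Dir M κ A j' ∧ j' ≠ j ∧ c j' ≤ c j)
    (v : σ → ℚ) (hv : ∀ i, κ i = 0 → v i = 0)
    (hv2 : ∀ α ∈ face M κ, ∑ i, v i * (α i : ℚ) = 0) : ∑ i, c i * v i = 0 := by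
  classical
  by_contra hne
  -- the minimum of the functional
  have hcont : Continuous fun w : σ → ℝ => ∑ i, (c i : ℝ) * w i :=
    continuous_finsetSum _ fun i _ => continuous_const.mul (continuous_apply i)
  have hκP : PP M κ N (fun i => (κ i : ℝ)) := by
    have hd : ∀ β : σ →₀ ℕ, dot (fun i => (κ i : ℝ)) β = ((dot κ β : ℕ) : ℝ) := by
      intro β
      unfold dot
      push_cast
      rfl
    refine ⟨fun i => Nat.cast_nonneg _, fun i hi => by
      show ((κ i : ℕ) : ℝ) = 0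
      rw [hi]; simp, fun β hβ => ?_, fun α hα => ?_⟩
    · rw [hd]
      exact_mod_cast G.ge β hβ
    · rw [hd, ((G.face_iff α).1 hα).2]
  obtain ⟨w₀, hw₀, hmin⟩ := (isCompact_PP G).exists_isMinOn ⟨_, hκP⟩ hcont.continuousOn
  have hmin' : ∀ w, PP M κ N w → ∑ i, (c i : ℝ) * w₀ i ≤ ∑ i, (c i : ℝ) * w i := fun w hw =>
    hmin hw
  set m : ℝ := ∑ i, (c i : ℝ) * w₀ i with hm
  -- the smallest tight set
  have hex : ∃ k, ∃ w, PP M κ N w ∧ ∑ i, (c i : ℝ) * w i = m ∧ (actR M N w).card = k :=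
    ⟨_, w₀, hw₀, rfl, rfl⟩
  obtain ⟨w, hw, hwm, hwk⟩ := Nat.find_spec hex
  have hsub : ∀ w', PP M κ N w' → ∑ i, (c i : ℝ) * w' i = m → actR M N w ⊆ actR M N w' := by
    intro w' hw' hwm'
    let z : σ → ℝ := fun i => (w i + w' i) / 2
    have hz : ∀ β : σ →₀ ℕ, dot z β = (dot w β + dot w' β) / 2 := by
      intro β
      unfold dot
      rw [← Finset.sum_add_distrib, Finset.sum_div]
      exact Finset.sum_congr rfl fun i _ => by show (w i + w' i) / 2 * _ = _; ring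
    have hzP : PP M κ N z := by
      refine ⟨fun i => ?_, fun i hi => ?_, fun β hβ => ?_, fun α hα => ?_⟩
      · have h1 := hw.1 i
        have h2 := hw'.1 i
        show 0 ≤ (w i + w' i) / 2
        linarith
      · show (w i + w' i) / 2 = 0
        rw [hw.2.1 i hi, hw'.2.1 i hi]; simp
      · rw [hz]
        have h1 := hw.2.2.1 β hβ
        have h2 := hw'.2.2.1 β hβ
        linarith
      · rw [hz, hw.2.2.2 α hα, hw'.2.2.2 α hα]; ring
    have hzm : ∑ i, (c i : ℝ) * z i = m := by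
      have : ∑ i, (c i : ℝ) * z i = (∑ i, (c i : ℝ) * w i + ∑ i, (c i : ℝ) * w' i) / 2 := by
        rw [← Finset.sum_add_distrib, Finset.sum_div]
        exact Finset.sum_congr rfl fun i _ => by show _ * ((w i + w' i) / 2) = _; ring
      rw [this, hwm, hwm']; ring
    have h1 : actR M N z ⊆ actR M N w := by
      intro ρ hρ
      rcases ρ with i | α
      · rw [mem_actR_inl] at hρ ⊢
        have h2 : (w i + w' i) / 2 = 0 := hρ
        have h3 := hw.1 i
        have h4 := hw'.1 i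
        linarith
      · rw [mem_actR_inr] at hρ ⊢
        rw [hz] at hρ
        have h3 := hw.2.2.1 _ α.2
        have h4 := hw'.2.2.1 _ α.2
        linarith
    have h2 : actR M N z ⊆ actR M N w' := by
      intro ρ hρ
      rcases ρ with i | α
      · rw [mem_actR_inl] at hρ ⊢
        have h2 : (w i + w' i) / 2 = 0 := hρ
        have h3 := hw.1 i
        have h4 := hw'.1 i
        linarith
      · rw [mem_actR_inr] at hρ ⊢
        rw [hz] at hρ
        have h3 := hw.2.2.1 _ α.2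
        have h4 := hw'.2.2.1 _ α.2
        linarith
    have h3 : (actR M N w).card ≤ (actR M N z).card := by
      rw [hwk]
      exact Nat.find_min' hex ⟨z, hzP, hzm, rfl⟩
    rw [← Finset.eq_of_subset_of_card_le h1 h3]
    exact h2
  -- there is a new tight wall
  have hnew : (∃ i, κ i ≠ 0 ∧ w i = 0) ∨ ∃ β ∈ M, β ∉ face M κ ∧ dot w β = N := by
    by_contra hcon
    push Not at hcon
    obtain ⟨hcon1, hcon2⟩ := hcon
    obtain ⟨ε₁, hε₁, hε₁'⟩ := exists_eps (univ.filter fun i => κ i ≠ 0) w (fun i => (v i : ℝ))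
      (fun i hi => lt_of_le_of_ne (hw.1 i) (Ne.symm (hcon1 i (Finset.mem_filter.1 hi).2)))
    obtain ⟨ε₂, hε₂, hε₂'⟩ := exists_eps (M.filter fun β => β ∉ face M κ)
      (fun β => dot w β - N) (fun β => ∑ i, (v i : ℝ) * (β i : ℝ))
      (fun β hβ => by
        have h1 := Finset.mem_filter.1 hβ
        have h2 := lt_of_le_of_ne (hw.2.2.1 β h1.1) (Ne.symm (hcon2 β h1.1 h1.2))
        linarith)
    have hvR : ∀ α ∈ face M κ, ∑ i, (v i : ℝ) * (α i : ℝ) = 0 := by
      intro α hα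
      have := hv2 α hα
      have h1 : ((∑ i, v i * (α i : ℚ) : ℚ) : ℝ) = 0 := by rw [this]; simp
      push_cast at h1
      exact h1
    have key : ∀ t : ℝ, |t| ≤ min ε₁ ε₂ → PP M κ N (fun i => w i + t * (v i : ℝ)) := by
      intro t ht
      refine ⟨fun i => ?_, fun i hi => ?_, fun β hβ => ?_, fun α hα => ?_⟩
      · show 0 ≤ w i + t * (v i : ℝ)
        by_cases hi : κ i = 0
        · rw [hw.2.1 i hi, hv i hi]; simp
        · have h1 := hε₁' i (Finset.mem_filter.2 ⟨mem_univ i, hi⟩)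
          have h2 : |t * (v i : ℝ)| ≤ ε₁ * |(v i : ℝ)| := by
            rw [abs_mul]
            exact mul_le_mul_of_nonneg_right (ht.trans (min_le_left _ _)) (abs_nonneg _)
          have h3 := neg_abs_le (t * (v i : ℝ))
          linarith
      · show w i + t * (v i : ℝ) = 0
        rw [hw.2.1 i hi, hv i hi]; simp
      · rw [dot_add_smul]
        by_cases hβf : β ∈ face M κ
        · rw [hvR β hβf, hw.2.2.2 β hβf]; simp
        · have h1 := hε₂' β (Finset.mem_filter.2 ⟨hβ, hβf⟩)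
          have h2 : |t * ∑ i, (v i : ℝ) * (β i : ℝ)| ≤ ε₂ * |∑ i, (v i : ℝ) * (β i : ℝ)| := by
            rw [abs_mul]
            exact mul_le_mul_of_nonneg_right (ht.trans (min_le_right _ _)) (abs_nonneg _)
          have h3 := neg_abs_le (t * ∑ i, (v i : ℝ) * (β i : ℝ))
          linarith
      · rw [dot_add_smul, hvR α hα, hw.2.2.2 α hα]; simp
    have hval : ∀ t : ℝ, ∑ i, (c i : ℝ) * (w i + t * (v i : ℝ))
        = m + t * ∑ i, (c i : ℝ) * (v i : ℝ) := by
      intro t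
      rw [← hwm, Finset.mul_sum, ← Finset.sum_add_distrib]
      exact Finset.sum_congr rfl fun i _ => by ring
    have hneR : (∑ i, (c i : ℝ) * (v i : ℝ)) ≠ 0 := by
      intro h
      apply hne
      have h1 : ((∑ i, c i * v i : ℚ) : ℝ) = 0 := by
        push_cast
        exact h
      exact_mod_cast h1
    have hε : 0 < min ε₁ ε₂ := lt_min hε₁ hε₂
    rcases lt_or_gt_of_ne hneR with h | h
    · have h1 := hmin' _ (key (min ε₁ ε₂) (by rw [abs_of_pos hε]))
      rw [hval] at h1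
      nlinarith
    · have h1 := hmin' _ (key (-(min ε₁ ε₂)) (by rw [abs_neg, abs_of_pos hε]))
      rw [hval] at h1
      nlinarith
  obtain ⟨A, hA, j, hAj, hfree, huniq⟩ := G.real hw hnew
  obtain ⟨j', hj', hjj', hcj⟩ := hc A hA j hAj
  -- the other direction is not free
  have hnf : ¬ FreeDir M N w A j' := fun h => hjj' (huniq j' hj' h)
  obtain ⟨t₁, ht₁, ht₁'⟩ := exists_eps (M.filter fun β => dot w β ≠ N)
      (fun β => dot w β - N) (fun β => (β j' : ℝ) - (β j : ℝ))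
      (fun β hβ => by
        have h1 := Finset.mem_filter.1 hβ
        have h2 := lt_of_le_of_ne (hw.2.2.1 β h1.1) (Ne.symm h1.2)
        linarith)
  have hwj : 0 < w j := lt_of_le_of_ne (hw.1 j) (Ne.symm hfree.1)
  set t : ℝ := min t₁ (w j) with ht
  have ht0 : 0 < t := lt_min ht₁ hwj
  let e : σ → ℝ := fun i => (if i = j' then (1 : ℝ) else 0) - if i = j then 1 else 0
  have he : ∀ a : σ → ℝ, ∑ i, e i * a i = a j' - a j := fun a => sum_dv j' j a
  have hej' : e j' = 1 := by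
    show (if j' = j' then (1 : ℝ) else 0) - (if j' = j then 1 else 0) = 1
    rw [if_pos rfl, if_neg hjj']; ring
  have hzP : PP M κ N (fun i => w i + t * e i) := by
    refine ⟨fun i => ?_, fun i hi => ?_, fun β hβ => ?_, fun α hα => ?_⟩
    · show 0 ≤ w i + t * e i
      by_cases hi : i = j
      · have h1 : e i = -1 := by
          show (if i = j' then (1 : ℝ) else 0) - (if i = j then 1 else 0) = -1
          rw [if_pos hi, if_neg (by rw [hi]; exact hjj'.symm)]; ring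
        rw [h1, hi]
        have := min_le_right t₁ (w j)
        linarith
      · have h1 : 0 ≤ e i := by
          show 0 ≤ (if i = j' then (1 : ℝ) else 0) - (if i = j then 1 else 0)
          rw [if_neg hi]
          split_ifs <;> norm_num
        have h2 := hw.1 i
        positivity
    · have h1 : i ≠ j := by rintro rfl; exact hAj.1 hi
      have h2 : i ≠ j' := by rintro rfl; exact hj'.1 hi
      show w i + t * ((if i = j' then (1 : ℝ) else 0) - (if i = j then 1 else 0)) = 0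
      rw [hw.2.1 i hi, if_neg h1, if_neg h2]; ring
    · rw [dot_add_smul, he]
      by_cases hβN : dot w β = N
      · by_cases hβA : β = A
        · rw [hβN, hβA, hj'.2.1, hAj.2.1]; simp
        · rw [hβN, hfree.2 β hβ hβN hβA]
          have : (0 : ℝ) ≤ t * ((β j' : ℝ) - ((0 : ℕ) : ℝ)) := by
            have h3 : (0 : ℝ) ≤ (β j' : ℝ) := Nat.cast_nonneg _
            have h4 : ((0 : ℕ) : ℝ) = 0 := Nat.cast_zero
            rw [h4, sub_zero]
            positivity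
          linarith
      · have h1 := ht₁' β (Finset.mem_filter.2 ⟨hβ, hβN⟩)
        have h2 : |t * ((β j' : ℝ) - (β j : ℝ))| ≤ t₁ * |(β j' : ℝ) - (β j : ℝ)| := by
          rw [abs_mul, abs_of_pos ht0]
          exact mul_le_mul_of_nonneg_right (min_le_left _ _) (abs_nonneg _)
        have h3 := neg_abs_le (t * ((β j' : ℝ) - (β j : ℝ)))
        linarith
    · rw [dot_add_smul, he, hw.2.2.2 α hα]
      by_cases hαA : α = A
      · rw [hαA, hj'.2.1, hAj.2.1]; simp
      · rw [hj'.2.2 α hα hαA, hAj.2.2 α hα hαA]; simp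
  have hzm : ∑ i, (c i : ℝ) * (w i + t * e i) = m := by
    have h1 : ∑ i, (c i : ℝ) * (w i + t * e i) = m + t * ((c j' : ℝ) - (c j : ℝ)) := by
      have h2 := he fun i => (c i : ℝ)
      rw [← hwm, ← h2, Finset.mul_sum, ← Finset.sum_add_distrib]
      exact Finset.sum_congr rfl fun i _ => by ring
    have h2 := hmin' _ hzP
    rw [h1] at h2 ⊢
    have h3 : (c j' : ℝ) ≤ (c j : ℝ) := by exact_mod_cast hcj
    nlinarith
  have hsub' := hsub _ hzP hzm
  apply hnf
  refine ⟨fun h0 => ?_, fun β hβ hβN hβA => ?_⟩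
  · have h1 := hsub' ((mem_actR_inl M N w j').2 h0)
    rw [mem_actR_inl] at h1
    rw [h0, hej'] at h1
    linarith
  · by_contra hβj'
    have h1 := hsub' ((mem_actR_inr M N w ⟨β, hβ⟩).2 hβN)
    rw [mem_actR_inr] at h1
    have h2 : dot (fun i => w i + t * e i) β = N := h1
    rw [dot_add_smul, he, hβN, hfree.2 β hβ hβN hβA] at h2
    have h3 : (0 : ℝ) < (β j' : ℝ) := by
      have := Nat.pos_of_ne_zero hβj'
      exact_mod_cast this
    have h4 : ((0 : ℕ) : ℝ) = 0 := Nat.cast_zero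
    rw [h4, sub_zero] at h2
    have h5 : 0 < t * (β j' : ℝ) := mul_pos ht0 h3
    linarith

/-- an apex has at most two directions -/
theorem Good.two {M : Finset (σ →₀ ℕ)} {κ : σ → ℕ} {N : ℕ} (G : Good M κ N) (A : σ →₀ ℕ)
    (hA : A ∈ face M κ) (j1 j2 j3 : σ) (h1 : Dir M κ A j1) (h2 : Dir M κ A j2)
    (h3 : Dir M κ A j3) (h12 : j1 ≠ j2) : j3 = j1 ∨ j3 = j2 := by
  classical
  by_contra hcon
  push Not at hcon
  have hnub : ∀ B ∈ face M κ, ∀ j, Dir M κ B j → ∃ l, Dir M κ B l ∧ l ≠ j := by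
    intro B hB j hj
    by_contra hc
    push Not at hc
    exact G.nub ⟨B, hB, j, hj, hc⟩
  have h := G.main (fun i => if i = j3 then 1 else 0) (fun B hB j hj => by
    by_cases hjj : j = j3
    · subst hjj
      have hBA : B = A := by
        by_contra hne
        have h4 := hj.2.2 A hA (Ne.symm hne)
        rw [h3.2.1] at h4
        exact one_ne_zero h4
      subst hBA
      refine ⟨j1, h1, hcon.1.symm, ?_⟩
      show (if j1 = j then (1 : ℚ) else 0) ≤ if j = j then 1 else 0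
      rw [if_neg hcon.1.symm, if_pos rfl]
      exact zero_le_one
    · by_cases hBA : B = A
      · subst hBA
        by_cases hj1 : j = j1
        · refine ⟨j2, h2, fun h => h12 (hj1.symm.trans h.symm), ?_⟩
          rw [if_neg hcon.2.symm, if_neg hjj]
        · refine ⟨j1, h1, Ne.symm hj1, ?_⟩
          rw [if_neg hcon.1.symm, if_neg hjj]
      · obtain ⟨l, hl, hlj⟩ := hnub B hB j hj
        refine ⟨l, hl, hlj, ?_⟩
        have h5 : l ≠ j3 := by
          intro hl3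
          have h4 := hl.2.2 A hA (Ne.symm hBA)
          rw [hl3, h3.2.1] at h4
          exact one_ne_zero h4
        show (if l = j3 then (1 : ℚ) else 0) ≤ if j = j3 then 1 else 0
        rw [if_neg h5, if_neg hjj]) (fun i => dv j3 j1 i) (fun i hi => by
    have h4 : i ≠ j3 := by rintro rfl; exact h3.1 hi
    have h5 : i ≠ j1 := by rintro rfl; exact h1.1 hi
    unfold dv
    rw [if_neg h4, if_neg h5, sub_zero]) (fun α hα => by
    unfold dv
    simp only [sub_mul, ite_mul, one_mul, zero_mul]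
    rw [Finset.sum_sub_distrib, Finset.sum_ite_eq' univ j3 fun i => (α i : ℚ),
      Finset.sum_ite_eq' univ j1 fun i => (α i : ℚ), if_pos (mem_univ _), if_pos (mem_univ _)]
    by_cases hαA : α = A
    · rw [hαA, h3.2.1, h1.2.1, sub_self]
    · rw [h3.2.2 α hα hαA, h1.2.2 α hα hαA, sub_self])
  unfold dv at h
  simp only [ite_mul, one_mul, zero_mul] at h
  rw [Finset.sum_ite_eq' univ j3] at h
  simp only [mem_univ, if_true] at h
  rw [if_neg hcon.1] at h
  norm_num at h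

end str

/-- MODULE STR -/
theorem str : StrStmt := by
  classical
  intro σ _ M x hx
  obtain ⟨κ, N, G, hκ⟩ := exists_good M x hx
  have hne : Nonempty σ := by
    by_contra hcon
    rw [not_nonempty_iff] at hcon
    obtain ⟨α, hα, hαN⟩ := G.ex
    have h1 : dot κ α = 0 := by
      unfold dot
      simp
    have := G.hN
    omega
  obtain ⟨s₀⟩ := hne
  have hnub : ∀ B ∈ face M κ, ∀ j, Dir M κ B j → ∃ l, Dir M κ B l ∧ l ≠ j := by
    intro B hB j hj
    by_contra hc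
    push Not at hc
    exact G.nub ⟨B, hB, j, hj, hc⟩
  have hch : ∀ A : σ →₀ ℕ, ∃ p : σ × σ, A ∈ face M κ → (∃ j, Dir M κ A j) →
      p.1 ≠ p.2 ∧ Dir M κ A p.1 ∧ Dir M κ A p.2 := by
    intro A
    by_cases h : A ∈ face M κ ∧ ∃ j, Dir M κ A j
    · obtain ⟨hA, j, hj⟩ := h
      obtain ⟨l, hl, hlj⟩ := hnub A hA j hj
      exact ⟨(j, l), fun _ _ => ⟨hlj.symm, hj, hl⟩⟩
    · exact ⟨(s₀, s₀), fun h1 h2 => absurd ⟨h1, h2⟩ h⟩
  choose p hp using hch
  set Ap : Finset (σ →₀ ℕ) := M.filter fun A => A ∈ face M κ ∧ ∃ j, Dir M κ A j with hAp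
  have hmem : ∀ A, A ∈ Ap ↔ A ∈ face M κ ∧ ∃ j, Dir M κ A j := by
    intro A
    rw [hAp, Finset.mem_filter]
    exact ⟨fun h => h.2, fun h => ⟨h.1.1, h⟩⟩
  have hall : ∀ A ∈ face M κ, ∀ j, Dir M κ A j → A ∈ Ap ∧ (j = (p A).1 ∨ j = (p A).2) := by
    intro A hA j hj
    obtain ⟨h1, h2, h3⟩ := hp A hA ⟨j, hj⟩
    exact ⟨(hmem A).2 ⟨hA, j, hj⟩, G.two A hA _ _ j h2 h3 hj h1⟩
  refine ⟨κ, ⟨N, G.hN, G.ge, G.ex, G.flat, Ap, fun A => (p A).1, fun A => (p A).2, ?_, hall, ?_,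
    ?_⟩, hκ⟩
  · intro A hA
    obtain ⟨h1, h2⟩ := (hmem A).1 hA
    obtain ⟨h3, h4, h5⟩ := hp A h1 h2
    exact ⟨h1, h3, h4, h5⟩
  · intro v hv hv2
    by_contra hcon
    set W : Submodule ℚ (σ → ℚ) := Submodule.span ℚ (Set.range fun A : Ap =>
      dv (p (A : σ →₀ ℕ)).1 (p (A : σ →₀ ℕ)).2) with hW
    have hvW : v ∉ W := by
      intro h
      rw [hW, Submodule.mem_span_range_iff_exists_fun] at h
      obtain ⟨y, hy⟩ := h
      apply hcon
      refine ⟨fun A => if h : A ∈ Ap then y ⟨A, h⟩ else 0, fun i => ?_⟩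
      rw [← hy, Finset.sum_apply, ← Finset.sum_coe_sort Ap]
      refine Finset.sum_congr rfl fun A _ => ?_
      show y A * dv (p (A : σ →₀ ℕ)).1 (p (A : σ →₀ ℕ)).2 i
        = (if h : (A : σ →₀ ℕ) ∈ Ap then y ⟨A, h⟩ else 0)
          * dv (p (A : σ →₀ ℕ)).1 (p (A : σ →₀ ℕ)).2 i
      rw [dif_pos A.2]
    obtain ⟨f, hf, hfW⟩ := Submodule.exists_le_ker_of_notMem hvW
    have hfe : ∀ u : σ → ℚ, f u = ∑ i, f (Pi.single i 1) * u i := by
      intro u
      have h0 : u = ∑ i, u i • Pi.single i (1 : ℚ) := by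
        funext l
        rw [Finset.sum_apply]
        simp [Pi.single_apply]
      conv_lhs => rw [h0]
      rw [map_sum]
      refine Finset.sum_congr rfl fun i _ => ?_
      rw [map_smul, smul_eq_mul, mul_comm]
    apply hf
    rw [hfe]
    refine G.main (fun i => f (Pi.single i 1)) (fun A hA j hj => ?_) v hv hv2
    obtain ⟨hAp', hj'⟩ := hall A hA j hj
    obtain ⟨h3, h4, h5⟩ := hp A hA ⟨j, hj⟩
    have h6 : f (dv (p A).1 (p A).2) = 0 := by
      have h7 : dv (p A).1 (p A).2 ∈ W := Submodule.subset_span ⟨⟨A, hAp'⟩, rfl⟩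
      exact LinearMap.mem_ker.1 (hfW h7)
    have h8 : dv (p A).1 (p A).2 = Pi.single (p A).1 (1 : ℚ) - Pi.single (p A).2 1 := by
      funext i
      unfold dv
      rw [Pi.sub_apply, Pi.single_apply, Pi.single_apply]
    rw [h8, map_sub, sub_eq_zero] at h6
    rcases hj' with rfl | rfl
    · exact ⟨_, h5, h3.symm, h6.ge⟩
    · exact ⟨_, h4, h3, h6.le⟩
  · intro w h1 h2 h3 h4 h5
    obtain ⟨A, hA, j, hj, hfree, huniq⟩ := G.real (w := w) ⟨h1, h2, h3, h4⟩ h5
    obtain ⟨hAp', hj'⟩ := hall A hA j hj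
    obtain ⟨h6, h7, h8⟩ := hp A hA ⟨j, hj⟩
    refine ⟨A, hAp', fun hiff => ?_⟩
    rcases hj' with rfl | rfl
    · exact h6 (huniq _ h8 (hiff.1 hfree)).symm
    · exact h6 (huniq _ h7 (hiff.2 hfree))

end Pool.Agent.Helper30_Simp2.H40
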