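import Pool.Agent.Helper30_Simp2.Stmts

/-!
# Module RATPT: integral points in real cells
-/

set_option autoImplicit false

namespace Pool.Agent.Helper30_Simp2.H40

open Finset Pool.Agent.Helper6_Mono Pool.Agent.Helper30_Simp

/-- a rational linear map which is positive on finitely many positive reals -/
theorem exists_pos_map (F : Finset ℝ) (hF : ∀ x ∈ F, 0 < x) :
    ∃ φ : ℝ →ₗ[ℚ] ℚ, ∀ x ∈ F, 0 < φ x := by
  classical
  let b := Module.Basis.ofVectorSpace ℚ ℝ
  -- a bound for the coordinates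
  obtain ⟨δ, hδ, hδF⟩ : ∃ δ : ℝ, 0 < δ ∧ ∀ x ∈ F,
      δ * ∑ j ∈ (b.repr x).support, |((b.repr x j : ℚ) : ℝ)| < x := by
    induction F using Finset.induction_on with
    | empty => exact ⟨1, one_pos, by simp⟩
    | insert a s ha ih =>
      obtain ⟨δ, h1, h2⟩ := ih fun x hx => hF x (Finset.mem_insert_of_mem hx)
      have ha0 := hF a (Finset.mem_insert_self _ _)
      have hs0 : 0 ≤ ∑ j ∈ (b.repr a).support, |((b.repr a j : ℚ) : ℝ)| :=
        Finset.sum_nonneg fun _ _ => abs_nonneg _
      refine ⟨min δ (a / (2 * (1 + ∑ j ∈ (b.repr a).support, |((b.repr a j : ℚ) : ℝ)|))),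
        lt_min h1 (by positivity), fun x hx => ?_⟩
      rcases Finset.mem_insert.1 hx with rfl | hx
      · have h3 : (x / (2 * (1 + ∑ j ∈ (b.repr x).support, |((b.repr x j : ℚ) : ℝ)|)))
            * ∑ j ∈ (b.repr x).support, |((b.repr x j : ℚ) : ℝ)| < x := by
          rw [div_mul_eq_mul_div, div_lt_iff₀ (by positivity)]
          nlinarith
        exact lt_of_le_of_lt (mul_le_mul_of_nonneg_right (min_le_right _ _) hs0) h3
      · have hs1 : 0 ≤ ∑ j ∈ (b.repr x).support, |((b.repr x j : ℚ) : ℝ)| :=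
          Finset.sum_nonneg fun _ _ => abs_nonneg _
        exact lt_of_le_of_lt (mul_le_mul_of_nonneg_right (min_le_left _ _) hs1) (h2 x hx)
  have hr : ∀ j, ∃ r : ℚ, |(b j : ℝ) - r| ≤ δ := by
    intro j
    obtain ⟨r, h1, h2⟩ := exists_rat_btwn (show b j - δ < b j + δ by linarith)
    exact ⟨r, abs_le.2 ⟨by linarith, by linarith⟩⟩
  choose r hr using hr
  refine ⟨b.constr ℚ r, fun x hx => ?_⟩
  have h1 : (((b.constr ℚ r) x : ℚ) : ℝ) = ∑ j ∈ (b.repr x).support,
      ((b.repr x j : ℚ) : ℝ) * (r j : ℝ) := by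
    rw [Module.Basis.constr_apply, Finsupp.sum, Rat.cast_sum]
    refine Finset.sum_congr rfl fun j _ => ?_
    rw [smul_eq_mul, Rat.cast_mul]
  have h2 : x = ∑ j ∈ (b.repr x).support, ((b.repr x j : ℚ) : ℝ) * (b j : ℝ) := by
    conv_lhs => rw [← b.linearCombination_repr x, Finsupp.linearCombination_apply, Finsupp.sum]
    refine Finset.sum_congr rfl fun j _ => ?_
    rw [Rat.smul_def]
  have h3 : |x - (((b.constr ℚ r) x : ℚ) : ℝ)|
      ≤ δ * ∑ j ∈ (b.repr x).support, |((b.repr x j : ℚ) : ℝ)| := by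
    rw [h1]
    nth_rw 1 [h2]
    rw [← Finset.sum_sub_distrib, Finset.mul_sum]
    refine (Finset.abs_sum_le_sum_abs _ _).trans (Finset.sum_le_sum fun j _ => ?_)
    rw [← mul_sub, abs_mul, mul_comm]
    exact mul_le_mul_of_nonneg_right (hr j) (abs_nonneg _)
  have h4 := hδF x hx
  have h5 : (0 : ℝ) < (((b.constr ℚ r) x : ℚ) : ℝ) := by
    have := (abs_le.1 h3).2
    linarith
  exact_mod_cast h5

/-- a common denominator -/
theorem exists_nat_mul {ι : Type} [Fintype ι] (q : ι → ℚ) (hq : ∀ i, 0 ≤ q i) :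
    ∃ (K : ℕ) (n : ι → ℕ), 0 < K ∧ ∀ i, (n i : ℚ) = K * q i := by
  classical
  refine ⟨∏ i, (q i).den, fun i => (q i).num.toNat * ∏ j ∈ univ.erase i, (q j).den,
    Finset.prod_pos fun i _ => (q i).den_pos, fun i => ?_⟩
  have h1 : ((q i).num.toNat : ℤ) = (q i).num := Int.toNat_of_nonneg (Rat.num_nonneg.2 (hq i))
  have h2 : ((q i).num.toNat : ℚ) = (q i).num := by exact_mod_cast h1
  rw [← Finset.mul_prod_erase univ (fun j => (q j).den) (mem_univ i)]
  push_cast
  rw [h2]
  have h3 : ((q i).num : ℚ) = (q i).den * q i := by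
    rw [mul_comm]
    exact (Rat.mul_den_eq_num (q i)).symm
  rw [h3]
  ring

/-- MODULE RATPT -/
theorem ratpt : RatPtStmt := by
  classical
  intro σ _ M w N hN hw hM
  let F : Finset ℝ := insert N (((univ : Finset σ).image w ∪
    M.image fun β => dot w β - N).filter fun x => 0 < x)
  obtain ⟨φ, hφ⟩ := exists_pos_map F (by
    intro x hx
    rcases Finset.mem_insert.1 hx with rfl | hx
    · exact hN
    · exact (Finset.mem_filter.1 hx).2)
  have hφN : 0 < φ N := hφ N (Finset.mem_insert_self _ _)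
  have hφw : ∀ i, 0 < w i → 0 < φ (w i) := fun i hi => hφ _ (Finset.mem_insert_of_mem
    (Finset.mem_filter.2 ⟨Finset.mem_union_left _ (Finset.mem_image_of_mem _ (mem_univ i)), hi⟩))
  have hφβ : ∀ β ∈ M, 0 < dot w β - N → 0 < φ (dot w β - N) := fun β hβ h =>
    hφ _ (Finset.mem_insert_of_mem (Finset.mem_filter.2 ⟨Finset.mem_union_right _
      (Finset.mem_image_of_mem (fun β => dot w β - N) hβ), h⟩))
  have hφw0 : ∀ i, φ (w i) = 0 ↔ w i = 0 := by
    intro i
    constructor
    · intro h
      by_contra hne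
      exact (hφw i (lt_of_le_of_ne (hw i) (Ne.symm hne))).ne' h
    · intro h
      rw [h, map_zero]
  obtain ⟨K, n, hK, hn⟩ := exists_nat_mul (fun o : Option σ => match o with
    | none => φ N
    | some i => φ (w i)) (by
      rintro (_ | i)
      · exact hφN.le
      · rcases (hw i).eq_or_lt with h | h
        · show 0 ≤ φ (w i)
          rw [← h, map_zero]
        · exact (hφw i h).le)
  have hKQ : (0 : ℚ) < K := by exact_mod_cast hK
  have hnN : (n none : ℚ) = K * φ N := hn none
  have hni : ∀ i, (n (some i) : ℚ) = K * φ (w i) := fun i => hn (some i)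
  have hdot : ∀ β : σ →₀ ℕ, ((dot (fun i => n (some i)) β : ℕ) : ℚ) = K * φ (dot w β) := by
    intro β
    unfold dot
    push_cast
    rw [map_sum, Finset.mul_sum]
    refine Finset.sum_congr rfl fun i _ => ?_
    rw [hni, mul_assoc]
    congr 1
    have : w i * (β i : ℝ) = (β i) • w i := by
      rw [nsmul_eq_mul, mul_comm]
    rw [this, map_nsmul, nsmul_eq_mul, mul_comm]
  refine ⟨fun i => n (some i), n none, ?_, fun i => ?_, fun β hβ => ?_⟩
  · have : (0 : ℚ) < n none := by rw [hnN]; positivity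
    exact_mod_cast this
  · constructor
    · intro h
      have h1 : (n (some i) : ℚ) = 0 := by
        have : n (some i) = 0 := h
        rw [this]; simp
      rw [hni, mul_eq_zero] at h1
      exact (hφw0 i).1 (h1.resolve_left hKQ.ne')
    · intro h
      have h1 : (n (some i) : ℚ) = 0 := by rw [hni, (hφw0 i).2 h, mul_zero]
      exact_mod_cast h1
  · have hd : ((dot (fun i => n (some i)) β : ℕ) : ℚ) - (n none : ℚ)
        = K * φ (dot w β - N) := by
      rw [hdot, hnN, map_sub, mul_sub]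
    rcases (hM β hβ).eq_or_lt with h | h
    · have h1 : ((dot (fun i => n (some i)) β : ℕ) : ℚ) = (n none : ℚ) := by
        rw [← h, sub_self, map_zero, mul_zero, sub_eq_zero] at hd
        exact hd
      have h2 : dot (fun i => n (some i)) β = n none := by exact_mod_cast h1
      exact ⟨h2.ge, fun _ => h.symm, fun _ => h2⟩
    · have h0 : 0 < K * φ (dot w β - N) := mul_pos hKQ (hφβ β hβ (by linarith))
      have h1 : (n none : ℚ) < ((dot (fun i => n (some i)) β : ℕ) : ℚ) := by
        rw [← hd] at h0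
        linarith
      have h2 : n none < dot (fun i => n (some i)) β := by exact_mod_cast h1
      exact ⟨h2.le, fun h3 => absurd h3 h2.ne', fun h3 => absurd h3 h.ne'⟩

end Pool.Agent.Helper30_Simp2.H40
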